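import Pool.Agent.N139.Th.Equal

/-!
# The two period matrices are not equivalent under the principal congruence subgroup of level 2
-/

namespace Pool.Agent.N139.Th

open Complex Matrix
open scoped Real

/-- integral matrices as complex matrices -/
noncomputable abbrev cc {n : Type*} (A : Matrix n n ℤ) : Matrix n n ℂ := A.map (Int.cast : ℤ → ℂ)

section general

variable {n : Type*} [Fintype n] [DecidableEq n]

omit [DecidableEq n] in
theorem cc_mul (A B : Matrix n n ℤ) : cc (A * B) = cc A * cc B := by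
  exact Matrix.map_mul (L := A) (M := B) (f := Int.castRingHom ℂ)

omit [Fintype n] [DecidableEq n] in
theorem cc_add (A B : Matrix n n ℤ) : cc (A + B) = cc A + cc B := by
  ext i j
  simp [cc]

omit [Fintype n] [DecidableEq n] in
theorem cc_sub (A B : Matrix n n ℤ) : cc (A - B) = cc A - cc B := by
  ext i j
  simp [cc]

omit [Fintype n] in
theorem cc_one : cc (1 : Matrix n n ℤ) = 1 := by
  ext i j
  simp [cc, Matrix.one_apply]

theorem cc_zero_of {t : Matrix n n ℂ} (ht : (t.map Complex.im).PosDef) (K L : Matrix n n ℤ)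
    (h : cc K * t + cc L = 0) : K = 0 := by
  have h1 : K.map (Int.cast : ℤ → ℝ) * t.map Complex.im = 0 := by
    ext i j
    have h2 := congrArg Complex.im (congrFun (congrFun h i) j)
    simp only [Matrix.add_apply, Matrix.mul_apply, Matrix.zero_apply, Complex.add_im,
      Complex.im_sum, Matrix.map_apply, Complex.intCast_im, add_zero, Complex.zero_im,
      Complex.mul_im, Complex.intCast_re, zero_mul] at h2
    simp only [Matrix.mul_apply, Matrix.map_apply, Matrix.zero_apply]
    exact h2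
  have hu : IsUnit (t.map Complex.im) := ht.isUnit
  have h3 : K.map (Int.cast : ℤ → ℝ) = 0 := by
    obtain ⟨u, hu⟩ := hu
    rw [← hu] at h1
    have h4 := congrArg (· * ((u⁻¹ : (Matrix n n ℝ)ˣ) : Matrix n n ℝ)) h1
    simpa using h4
  ext i j
  have h4 := congrFun (congrFun h3 i) j
  simpa using h4

theorem noneq {t t' : Matrix n n ℂ} (ht : (t.map Complex.im).PosDef) (r : ℂ)
    (A B C E A' B' : Matrix n n ℤ)
    (h1 : cc A * t + cc B = r • t) (h2 : cc C * t + cc E = r • 1)
    (h1' : cc A' * t' + cc B' = r • t')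
    (a b c d : Matrix n n ℤ) (hg : cc a * t + cc b = t' * (cc c * t + cc d))
    (a1 b1 c1 : Matrix n n ℤ) (ha : a = 1 + (2 : ℤ) • a1) (hb : b = (2 : ℤ) • b1)
    (hc : c = (2 : ℤ) • c1) : ∃ X : Matrix n n ℤ, A' - A = (2 : ℤ) • X := by
  have e1 : cc (A' * a + B' * c) * t + cc (A' * b + B' * d) = r • (cc a * t + cc b) := by
    rw [cc_add, cc_add, cc_mul, cc_mul, cc_mul, cc_mul]
    calc (cc A' * cc a + cc B' * cc c) * t + (cc A' * cc b + cc B' * cc d)
        = cc A' * (cc a * t + cc b) + cc B' * (cc c * t + cc d) := by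
          noncomm_ring
      _ = (cc A' * t' + cc B') * (cc c * t + cc d) := by
          rw [hg]
          noncomm_ring
      _ = r • (cc a * t + cc b) := by
          rw [h1', hg, smul_mul_assoc]
  have e2 : cc (a * A + b * C) * t + cc (a * B + b * E) = r • (cc a * t + cc b) := by
    rw [cc_add, cc_add, cc_mul, cc_mul, cc_mul, cc_mul]
    calc (cc a * cc A + cc b * cc C) * t + (cc a * cc B + cc b * cc E)
        = cc a * (cc A * t + cc B) + cc b * (cc C * t + cc E) := by
          noncomm_ring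
      _ = r • (cc a * t + cc b) := by
          rw [h1, h2, mul_smul_comm, mul_smul_comm, mul_one, smul_add]
  have e3 : cc (A' * a + B' * c - (a * A + b * C)) * t +
      cc (A' * b + B' * d - (a * B + b * E)) = 0 := by
    rw [cc_sub, cc_sub, sub_mul]
    have : cc (A' * a + B' * c) * t - cc (a * A + b * C) * t +
        (cc (A' * b + B' * d) - cc (a * B + b * E)) =
        (cc (A' * a + B' * c) * t + cc (A' * b + B' * d)) -
        (cc (a * A + b * C) * t + cc (a * B + b * E)) := by abel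
    rw [this, e1, e2, sub_self]
  have e4 := cc_zero_of ht _ _ e3
  refine ⟨a1 * A + b1 * C - A' * a1 - B' * c1, ?_⟩
  rw [ha, hb, hc] at e4
  have e5 : A' - A = (A' * (1 + (2 : ℤ) • a1) + B' * (2 : ℤ) • c1 -
      ((1 + (2 : ℤ) • a1) * A + (2 : ℤ) • b1 * C)) +
      (2 : ℤ) • (a1 * A + b1 * C - A' * a1 - B' * c1) := by
    simp only [mul_add, add_mul, mul_one, one_mul, smul_mul_assoc, mul_smul_comm, smul_sub, smul_add]
    abel
  rw [e5, e4, zero_add]

end general

/-! ### The concrete matrices -/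

/-- block diagonal matrix with a 6 x 6 block and a scalar block -/
def bd {R : Type*} [Zero R] (m : ℕ) (X : Matrix (Fin 6) (Fin 6) R) (y : R) :
    Matrix (Fin (6 + m)) (Fin (6 + m)) R :=
  (Matrix.fromBlocks X 0 0 (Matrix.diagonal fun _ => y)).submatrix
    finSumFinEquiv.symm finSumFinEquiv.symm

theorem bd_mul {R : Type*} [CommRing R] (m : ℕ) (X X' : Matrix (Fin 6) (Fin 6) R) (y y' : R) :
    bd m X y * bd m X' y' = bd m (X * X') (y * y') := by
  unfold bd
  rw [Matrix.submatrix_mul_equiv, Matrix.fromBlocks_multiply]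
  congr 1
  simp

theorem bd_add {R : Type*} [CommRing R] (m : ℕ) (X X' : Matrix (Fin 6) (Fin 6) R) (y y' : R) :
    bd m X y + bd m X' y' = bd m (X + X') (y + y') := by
  unfold bd
  have h := Matrix.fromBlocks_add X 0 0 (Matrix.diagonal fun _ : Fin m => y) X' 0 0
    (Matrix.diagonal fun _ => y')
  rw [add_zero, add_zero, Matrix.diagonal_add] at h
  rw [← h]
  rfl

theorem bd_smul (m : ℕ) (r : ℂ) (X : Matrix (Fin 6) (Fin 6) ℂ) (y : ℂ) :
    r • bd m X y = bd m (r • X) (r * y) := by
  unfold bd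
  have h := Matrix.fromBlocks_smul r X 0 0 (Matrix.diagonal fun _ : Fin m => y)
  rw [smul_zero, smul_zero, ← Matrix.diagonal_smul] at h
  have h2 : (r • fun _ : Fin m => y) = fun _ => r * y := rfl
  rw [h2] at h
  rw [← h]
  rfl

theorem bd_one (m : ℕ) : bd m (1 : Matrix (Fin 6) (Fin 6) ℂ) 1 = 1 := by
  unfold bd
  rw [Matrix.diagonal_one, Matrix.fromBlocks_one]
  exact Matrix.submatrix_one_equiv _

theorem cc_bd (m : ℕ) (X : Matrix (Fin 6) (Fin 6) ℤ) (y : ℤ) :
    cc (bd m X y) = bd m (cc X) (y : ℂ) := by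
  unfold bd cc
  rw [← Matrix.submatrix_map, Matrix.fromBlocks_map]
  congr 1
  rw [Matrix.diagonal_map (by simp)]
  simp

/-- the symmetric integral matrix -/
def S6 : Matrix (Fin 6) (Fin 6) ℤ :=
  !![0, 1, 1, 1, 0, 0;
     1, 0, 1, 0, 1, 0;
     1, 1, 0, 0, 0, 1;
     1, 0, 0, 1, 1, 1;
     0, 1, 0, 1, 1, 1;
     0, 0, 1, 1, 1, 1]

/-- the auxiliary matrix -/
def B6 : Matrix (Fin 6) (Fin 6) ℤ :=
  !![-2, 0, 0, 0, -1, -1;
     0, -2, 0, -1, 0, -1;
     0, 0, -2, -1, -1, 0;
     0, -1, -1, -2, -1, -1;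
     -1, 0, -1, -1, -2, -1;
     -1, -1, 0, -1, -1, -2]

theorem S6_rel : (2 : ℤ) • B6 = -(S6 * S6 - S6 + 1) := by
  decide +kernel

/-- the 6 x 6 period matrix attached to a symmetric integral matrix -/
noncomputable def T6 (S : Matrix (Fin 6) (Fin 6) ℤ) : Matrix (Fin 6) (Fin 6) ℂ :=
  (1 / 2 : ℂ) • (rho • 1 + cc S)

theorem T6_rel1 (S B : Matrix (Fin 6) (Fin 6) ℤ) (h : (2 : ℤ) • B = -(S * S - S + 1)) :
    cc (S - 1) * T6 S + cc B = rho • T6 S := by
  have h2 : cc B = (1 / 2 : ℂ) • -(cc S * cc S - cc S + 1) := by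
    have h3 : (2 : ℂ) • cc B = -(cc S * cc S - cc S + 1) := by
      have h4 := congrArg cc h
      rw [← cc_mul, ← cc_one, ← cc_sub, ← cc_add]
      ext i j
      have h5 := congrFun (congrFun h4 i) j
      simp only [cc, Matrix.map_apply, Matrix.smul_apply, Matrix.neg_apply] at h5 ⊢
      push_cast at h5 ⊢
      simpa using h5
    rw [← h3, smul_smul]
    norm_num
  rw [h2, cc_sub, cc_one, T6]
  have hr : rho * rho = -rho - 1 := by
    have := rho_sq
    linear_combination this
  simp only [mul_smul_comm, smul_add, smul_sub, smul_neg, sub_mul, mul_add, one_mul, mul_one,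
    smul_smul]
  have h6 : rho * (1 / 2 * rho) = 1 / 2 * (-rho - 1) := by
    rw [← hr]
    ring
  rw [h6]
  ext i j
  simp only [Matrix.add_apply, Matrix.sub_apply, Matrix.smul_apply, Matrix.neg_apply, smul_eq_mul]
  ring

theorem T6_rel2 (S : Matrix (Fin 6) (Fin 6) ℤ) :
    cc ((2 : ℤ) • 1) * T6 S + cc (-S) = rho • 1 := by
  have h1 : cc ((2 : ℤ) • (1 : Matrix (Fin 6) (Fin 6) ℤ)) = (2 : ℂ) • 1 := by
    ext i j
    simp only [cc, Matrix.map_apply, Matrix.smul_apply, Matrix.one_apply]
    split_ifs <;> simp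
  have h2 : cc (-S) = -cc S := by
    ext i j
    simp [cc]
  rw [h1, h2, T6, smul_mul_assoc, one_mul, smul_smul]
  norm_num

theorem S6_entries (i j : Fin 6) :
    S6 i j = (if i = j then p6 i else 0) + U6 i j + U6 j i := by
  fin_cases i <;> fin_cases j <;> rfl

theorem tT (m : ℕ) : tmat (sT m) (UT m) = bd m (T6 S6) rho := by
  ext i j
  refine Fin.addCases (fun i => ?_) (fun i => ?_) i <;>
    refine Fin.addCases (fun j => ?_) (fun j => ?_) j
  · simp only [tmat, UT_ll, sT, Fin.addCases_left, bd, Matrix.submatrix_apply,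
      finSumFinEquiv_symm_apply_castAdd, Matrix.fromBlocks_apply₁₁, T6, Matrix.smul_apply,
      Matrix.add_apply, cc, Matrix.map_apply, S6_entries i j, Matrix.one_apply, smul_eq_mul,
      Fin.castAdd_inj]
    split_ifs <;> push_cast <;> ring
  · have h : Fin.castAdd m i ≠ Fin.natAdd 6 j := by
      intro h
      have := congrArg Fin.val h
      simp at this
      omega
    simp only [tmat, UT_lr, UT_r, if_neg h, bd, Matrix.submatrix_apply,
      finSumFinEquiv_symm_apply_castAdd, finSumFinEquiv_symm_apply_natAdd,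
      Matrix.fromBlocks_apply₁₂, Matrix.zero_apply]
    simp
  · have h : Fin.natAdd 6 i ≠ Fin.castAdd m j := by
      intro h
      have := congrArg Fin.val h
      simp at this
      omega
    simp only [tmat, UT_lr, UT_r, if_neg h, bd, Matrix.submatrix_apply,
      finSumFinEquiv_symm_apply_castAdd, finSumFinEquiv_symm_apply_natAdd,
      Matrix.fromBlocks_apply₂₁, Matrix.zero_apply]
    simp
  · simp only [tmat, UT_r, sT, Fin.addCases_right, bd, Matrix.submatrix_apply,
      finSumFinEquiv_symm_apply_natAdd, Matrix.fromBlocks_apply₂₂, Matrix.diagonal_apply,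
      Fin.natAdd_inj]
    split_ifs <;> simp

theorem tT' (m : ℕ) : tmat (sT' m) (-UT m) = bd m (T6 (1 - S6)) rho := by
  ext i j
  refine Fin.addCases (fun i => ?_) (fun i => ?_) i <;>
    refine Fin.addCases (fun j => ?_) (fun j => ?_) j
  · simp only [tmat, Matrix.neg_apply, UT_ll, sT', Fin.addCases_left, bd, Matrix.submatrix_apply,
      finSumFinEquiv_symm_apply_castAdd, Matrix.fromBlocks_apply₁₁, T6, Matrix.smul_apply,
      Matrix.add_apply, Matrix.sub_apply, cc, Matrix.map_apply, S6_entries i j, Matrix.one_apply,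
      smul_eq_mul, Fin.castAdd_inj]
    split_ifs <;> push_cast <;> ring
  · have h : Fin.castAdd m i ≠ Fin.natAdd 6 j := by
      intro h
      have := congrArg Fin.val h
      simp at this
      omega
    simp only [tmat, Matrix.neg_apply, UT_lr, UT_r, if_neg h, bd, Matrix.submatrix_apply,
      finSumFinEquiv_symm_apply_castAdd, finSumFinEquiv_symm_apply_natAdd,
      Matrix.fromBlocks_apply₁₂, Matrix.zero_apply]
    simp
  · have h : Fin.natAdd 6 i ≠ Fin.castAdd m j := by
      intro h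
      have := congrArg Fin.val h
      simp at this
      omega
    simp only [tmat, Matrix.neg_apply, UT_lr, UT_r, if_neg h, bd, Matrix.submatrix_apply,
      finSumFinEquiv_symm_apply_castAdd, finSumFinEquiv_symm_apply_natAdd,
      Matrix.fromBlocks_apply₂₁, Matrix.zero_apply]
    simp
  · simp only [tmat, Matrix.neg_apply, UT_r, sT', Fin.addCases_right, bd, Matrix.submatrix_apply,
      finSumFinEquiv_symm_apply_natAdd, Matrix.fromBlocks_apply₂₂, Matrix.diagonal_apply,
      Fin.natAdd_inj]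
    split_ifs <;> simp

theorem tmat_posDef {g : ℕ} (s : Fin g → ℂ) (hs : ∀ i, 0 < (s i).im)
    (U : Matrix (Fin g) (Fin g) ℤ) : ((tmat s U).map Complex.im).PosDef := by
  have h : (tmat s U).map Complex.im = Matrix.diagonal (fun i => (s i).im / 2) := by
    ext i j
    simp only [Matrix.map_apply, tmat, Matrix.diagonal_apply]
    have h2 : ∀ z : ℂ, (z / 2).im = z.im / 2 := fun z => by
      simp
    rw [h2]
    split_ifs <;> simp
  rw [h]
  exact Matrix.PosDef.diagonal fun i => by have := hs i; linarith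

theorem tmat_symm {g : ℕ} (s : Fin g → ℂ) (U : Matrix (Fin g) (Fin g) ℤ) :
    (tmat s U).IsSymm := by
  ext i j
  simp only [Matrix.transpose_apply, tmat]
  by_cases h : i = j
  · subst h
    simp
  · rw [if_neg h, if_neg (Ne.symm h)]
    ring

theorem not_equiv (m : ℕ) (a b c d : Matrix (Fin (6 + m)) (Fin (6 + m)) ℤ)
    (hg : cc a * tmat (sT m) (UT m) + cc b =
      tmat (sT' m) (-UT m) * (cc c * tmat (sT m) (UT m) + cc d))
    (a1 b1 c1 : Matrix (Fin (6 + m)) (Fin (6 + m)) ℤ) (ha : a = 1 + (2 : ℤ) • a1)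
    (hb : b = (2 : ℤ) • b1) (hc : c = (2 : ℤ) • c1) : False := by
  have hrr : ((-1 : ℤ) : ℂ) * rho + ((-1 : ℤ) : ℂ) = rho * rho := by
    have := rho_sq
    push_cast
    linear_combination -this
  have hS' : (2 : ℤ) • B6 = -((1 - S6) * (1 - S6) - (1 - S6) + 1) := by
    rw [S6_rel]
    noncomm_ring
  obtain ⟨X, hX⟩ := noneq (tmat_posDef (sT m) sT_im (UT m)) rho
    (bd m (S6 - 1) (-1)) (bd m B6 (-1)) (bd m ((2 : ℤ) • 1) 1) (bd m (-S6) 0)
    (bd m (1 - S6 - 1) (-1)) (bd m B6 (-1))
    (by rw [tT, cc_bd, cc_bd, bd_mul, bd_add, bd_smul, T6_rel1 _ _ S6_rel, hrr])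
    (by
      rw [tT, cc_bd, cc_bd, bd_mul, bd_add, T6_rel2, ← bd_one, bd_smul]
      congr 1
      push_cast
      ring)
    (by rw [tT', cc_bd, cc_bd, bd_mul, bd_add, bd_smul, T6_rel1 _ _ hS', hrr])
    a b c d hg a1 b1 c1 ha hb hc
  have h0 := congrFun (congrFun hX (Fin.castAdd m 0)) (Fin.castAdd m 0)
  simp only [Matrix.sub_apply, bd, Matrix.submatrix_apply, finSumFinEquiv_symm_apply_castAdd,
    Matrix.fromBlocks_apply₁₁, Matrix.smul_apply, Matrix.one_apply_eq, smul_eq_mul] at h0
  have hS0 : S6 0 0 = 0 := by decide +kernel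
  rw [hS0] at h0
  omega

end Pool.Agent.N139.Th
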