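import Pool.Agent.N139.Th.Factor

/-!
# The finite computation for the prism
-/

namespace Pool.Agent.N139.Th

open Complex Matrix
open scoped Real

/-- oriented edges of the triangular prism -/
def N6 : Matrix (Fin 6) (Fin 6) ℕ :=
  !![0, 1, 1, 1, 0, 0;
     0, 0, 1, 0, 1, 0;
     0, 0, 0, 0, 0, 1;
     0, 0, 0, 0, 1, 1;
     0, 0, 0, 0, 0, 1;
     0, 0, 0, 0, 0, 0]

/-- the diagonal -/
def p6 (i : Fin 6) : ℤ := if i.val < 3 then 0 else 1

/-- integral version -/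
def U6 : Matrix (Fin 6) (Fin 6) ℤ := fun i j => (N6 i j : ℤ)

/-- number of edges inside `a` -/
def edg (a : Fin 6 → Fin 2) : ℕ := ∑ i, ∑ j, (a i).val * N6 i j * (a j).val

/-- linear term, natural number version -/
def linN (a : Fin 6 → Fin 2) (i : Fin 6) : ℕ := ∑ j, (N6 i j + N6 j i) * (a j).val

theorem check : ∀ a : Fin 6 → Fin 2,
    (∃ i, a i = 1 ∧ linN a i % 2 = 1) ∨
    (6 * edg a + ∑ i, kap (p6 i) ((a i).val : ℤ) (linN a i : ℤ)) % 24 =
      (18 * edg a + ∑ i, kap (1 - p6 i) ((a i).val : ℤ) (linN a i : ℤ)) % 24 := by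
  decide +kernel

end Pool.Agent.N139.Th
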