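import Pool.Agent.N139.Th.Comb

/-!
# Equality of the theta constants of the two period matrices
-/

namespace Pool.Agent.N139.Th

open Complex Matrix
open scoped Real

/-- diagonal of the first matrix -/
noncomputable def sT (m : ℕ) (i : Fin (6 + m)) : ℂ :=
  Fin.addCases (motive := fun _ => ℂ) (fun i => rho + ((p6 i : ℤ) : ℂ)) (fun _ => 2 * rho) i

/-- diagonal of the second matrix -/
noncomputable def sT' (m : ℕ) (i : Fin (6 + m)) : ℂ :=
  Fin.addCases (motive := fun _ => ℂ) (fun i => rho + ((1 - p6 i : ℤ) : ℂ)) (fun _ => 2 * rho) i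

/-- off-diagonal part -/
def UT (m : ℕ) : Matrix (Fin (6 + m)) (Fin (6 + m)) ℤ := fun i j =>
  Fin.addCases (motive := fun _ => ℤ)
    (fun i' => Fin.addCases (motive := fun _ => ℤ) (fun j' => U6 i' j') (fun _ => 0) j)
    (fun _ => 0) i

variable {m : ℕ}

theorem sT_im (i : Fin (6 + m)) : 0 < (sT m i).im := by
  refine Fin.addCases (fun i => ?_) (fun i => ?_) i
  · simp only [sT, Fin.addCases_left, Complex.add_im, Complex.intCast_im, add_zero]
    exact rho_im
  · simp only [sT, Fin.addCases_right]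
    have := rho_im
    simpa using this

theorem sT'_im (i : Fin (6 + m)) : 0 < (sT' m i).im := by
  refine Fin.addCases (fun i => ?_) (fun i => ?_) i
  · simp only [sT', Fin.addCases_left, Complex.add_im, Complex.intCast_im, add_zero]
    exact rho_im
  · simp only [sT', Fin.addCases_right]
    have := rho_im
    simpa using this

theorem UT_ll (i j : Fin 6) : UT m (Fin.castAdd m i) (Fin.castAdd m j) = U6 i j := by
  simp only [UT, Fin.addCases_left]

theorem UT_lr (i : Fin 6) (j : Fin m) : UT m (Fin.castAdd m i) (Fin.natAdd 6 j) = 0 := by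
  simp only [UT, Fin.addCases_left, Fin.addCases_right]

theorem UT_r (i : Fin m) (j : Fin (6 + m)) : UT m (Fin.natAdd 6 i) j = 0 := by
  simp only [UT, Fin.addCases_right]

theorem UT_quad (a : Fin (6 + m) → Fin 2) :
    ∑ i, ∑ j, ((a i).val : ℤ) * UT m i j * ((a j).val : ℤ) =
      (edg (fun i => a (Fin.castAdd m i)) : ℤ) := by
  rw [Fin.sum_univ_add]
  have h2 : ∑ i : Fin m, ∑ j, ((a (Fin.natAdd 6 i)).val : ℤ) * UT m (Fin.natAdd 6 i) j *
      ((a j).val : ℤ) = 0 := by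
    refine Finset.sum_eq_zero fun i _ => Finset.sum_eq_zero fun j _ => ?_
    rw [UT_r]
    ring
  rw [h2, add_zero, edg]
  push_cast
  refine Finset.sum_congr rfl fun i _ => ?_
  rw [Fin.sum_univ_add]
  have h3 : ∑ j : Fin m, ((a (Fin.castAdd m i)).val : ℤ) * UT m (Fin.castAdd m i) (Fin.natAdd 6 j) *
      ((a (Fin.natAdd 6 j)).val : ℤ) = 0 := by
    refine Finset.sum_eq_zero fun j _ => ?_
    rw [UT_lr]
    ring
  rw [h3, add_zero]
  refine Finset.sum_congr rfl fun j _ => ?_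
  rw [UT_ll, U6]

theorem lin_l (a : Fin (6 + m) → Fin 2) (i : Fin 6) :
    lin (UT m) (fun i => ((a i).val : ℤ)) (Fin.castAdd m i) =
      (linN (fun i => a (Fin.castAdd m i)) i : ℤ) := by
  rw [lin, Fin.sum_univ_add]
  have h3 : ∑ j : Fin m, (UT m (Fin.castAdd m i) (Fin.natAdd 6 j) +
      UT m (Fin.natAdd 6 j) (Fin.castAdd m i)) * ((a (Fin.natAdd 6 j)).val : ℤ) = 0 := by
    refine Finset.sum_eq_zero fun j _ => ?_
    rw [UT_lr, UT_r]
    ring
  rw [h3, add_zero, linN]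
  push_cast
  refine Finset.sum_congr rfl fun j _ => ?_
  rw [UT_ll, UT_ll, U6, U6]

theorem lin_r (a : Fin (6 + m) → Fin 2) (i : Fin m) :
    lin (UT m) (fun i => ((a i).val : ℤ)) (Fin.natAdd 6 i) = 0 := by
  rw [lin]
  refine Finset.sum_eq_zero fun j _ => ?_
  have h : UT m j (Fin.natAdd 6 i) = 0 := by
    refine Fin.addCases (fun j => ?_) (fun j => ?_) j
    · exact UT_lr j i
    · exact UT_r j _
  rw [UT_r, h]
  ring

theorem lin_neg {g : ℕ} (U : Matrix (Fin g) (Fin g) ℤ) (a : Fin g → ℤ) (i : Fin g) :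
    lin (-U) a i = -lin U a i := by
  rw [lin, lin, ← Finset.sum_neg_distrib]
  refine Finset.sum_congr rfl fun j _ => ?_
  rw [Matrix.neg_apply, Matrix.neg_apply]
  ring

theorem phi_neg_lin (s : ℂ) (a b : ℤ) : phi s a (-b) = phi s a b := by
  have : -b = b + 2 * (-b) := by ring
  rw [this, phi_add]

theorem p6_cases (i : Fin 6) : p6 i = 0 ∨ p6 i = 1 := by
  unfold p6
  split_ifs
  · exact Or.inl rfl
  · exact Or.inr rfl

theorem a_cases (x : Fin 2) : ((x.val : ℕ) : ℤ) = 0 ∨ ((x.val : ℕ) : ℤ) = 1 := by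
  fin_cases x
  · exact Or.inl rfl
  · exact Or.inr rfl

theorem zeta_mod (n : ℕ) : zeta ^ n = zeta ^ (n % 24) := by
  conv_lhs => rw [← Nat.div_add_mod n 24, pow_add, pow_mul, zeta_pow_24, one_pow, one_mul]

theorem exp_half (e : ℕ) : cexp (π * I / 2 * (((e : ℕ) : ℤ) : ℂ)) = zeta ^ (6 * e) := by
  rw [zeta_pow]
  congr 1
  push_cast
  ring

theorem exp_half_neg (e : ℕ) : cexp (π * I / 2 * ((-((e : ℕ) : ℤ) : ℤ) : ℂ)) = zeta ^ (18 * e) := by
  rw [zeta_pow]
  have : (((18 * e : ℕ) : ℂ)) * (π * I / 12) =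
      π * I / 2 * ((-((e : ℕ) : ℤ) : ℤ) : ℂ) + ((e : ℤ) : ℂ) * (2 * π * I) := by
    push_cast
    ring
  rw [this, Complex.exp_add, Complex.exp_int_mul_two_pi_mul_I, mul_one]

/-- the value of one factor -/
noncomputable def fac (p a b : ℤ) : ℂ :=
  if a = 1 ∧ b % 2 = 1 then 0 else zeta ^ kap p a b * uu

theorem core (b : Fin 6 → Fin 2) :
    zeta ^ (6 * edg b) * ∏ i, fac (p6 i) ((b i).val : ℤ) (linN b i : ℤ) =
      zeta ^ (18 * edg b) * ∏ i, fac (1 - p6 i) ((b i).val : ℤ) (linN b i : ℤ) := by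
  by_cases hz : ∃ i, b i = 1 ∧ linN b i % 2 = 1
  · obtain ⟨i, hi1, hi2⟩ := hz
    have hc : ((b i).val : ℤ) = 1 ∧ (linN b i : ℤ) % 2 = 1 := by
      rw [hi1]
      refine ⟨rfl, ?_⟩
      exact_mod_cast hi2
    have e0 : ∀ p : Fin 6 → ℤ, ∏ i, fac (p i) ((b i).val : ℤ) (linN b i : ℤ) = 0 := by
      intro p
      refine Finset.prod_eq_zero (Finset.mem_univ i) ?_
      exact if_pos hc
    rw [e0, e0, mul_zero, mul_zero]
  · have hc : ∀ i, ¬ (((b i).val : ℤ) = 1 ∧ (linN b i : ℤ) % 2 = 1) := by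
      intro i hi
      apply hz
      refine ⟨i, ?_, ?_⟩
      · have := hi.1
        apply Fin.ext
        exact_mod_cast this
      · exact_mod_cast hi.2
    have e1 : ∀ p : Fin 6 → ℤ, ∏ i, fac (p i) ((b i).val : ℤ) (linN b i : ℤ) =
        zeta ^ (∑ i, kap (p i) ((b i).val : ℤ) (linN b i : ℤ)) * ∏ _i : Fin 6, uu := by
      intro p
      rw [← Finset.prod_pow_eq_pow_sum, ← Finset.prod_mul_distrib]
      exact Finset.prod_congr rfl fun i _ => if_neg (hc i)
    rw [e1, e1, ← mul_assoc, ← mul_assoc, ← pow_add, ← pow_add]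
    rcases check b with h | h
    · exact absurd h hz
    · rw [zeta_mod, h, ← zeta_mod]

theorem theta_equal (a : Fin (6 + m) → Fin 2) :
    cexp (π * I / 2 * ((∑ i, ∑ j, ((a i).val : ℤ) * UT m i j * ((a j).val : ℤ) : ℤ) : ℂ)) *
      ∏ i, phi (sT m i) ((a i).val : ℤ) (lin (UT m) (fun i => ((a i).val : ℤ)) i) =
    cexp (π * I / 2 * ((∑ i, ∑ j, ((a i).val : ℤ) * (-UT m) i j * ((a j).val : ℤ) : ℤ) : ℂ)) *
      ∏ i, phi (sT' m i) ((a i).val : ℤ) (lin (-UT m) (fun i => ((a i).val : ℤ)) i) := by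
  have hneg : ∑ i, ∑ j, ((a i).val : ℤ) * (-UT m) i j * ((a j).val : ℤ) =
      -(edg (fun i => a (Fin.castAdd m i)) : ℤ) := by
    rw [← UT_quad, ← Finset.sum_neg_distrib]
    refine Finset.sum_congr rfl fun i _ => ?_
    rw [← Finset.sum_neg_distrib]
    refine Finset.sum_congr rfl fun j _ => ?_
    rw [Matrix.neg_apply]
    ring
  rw [UT_quad, hneg, exp_half, exp_half_neg, Fin.prod_univ_add, Fin.prod_univ_add]
  have hr : ∏ i : Fin m, phi (sT' m (Fin.natAdd 6 i)) ((a (Fin.natAdd 6 i)).val : ℤ)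
      (lin (-UT m) (fun i => ((a i).val : ℤ)) (Fin.natAdd 6 i)) =
      ∏ i : Fin m, phi (sT m (Fin.natAdd 6 i)) ((a (Fin.natAdd 6 i)).val : ℤ)
      (lin (UT m) (fun i => ((a i).val : ℤ)) (Fin.natAdd 6 i)) := by
    refine Finset.prod_congr rfl fun i _ => ?_
    rw [lin_neg, phi_neg_lin, sT, sT', Fin.addCases_right, Fin.addCases_right]
  have h1 : ∏ i : Fin 6, phi (sT m (Fin.castAdd m i)) ((a (Fin.castAdd m i)).val : ℤ)
      (lin (UT m) (fun i => ((a i).val : ℤ)) (Fin.castAdd m i)) =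
      ∏ i : Fin 6, fac (p6 i) ((a (Fin.castAdd m i)).val : ℤ)
        (linN (fun i => a (Fin.castAdd m i)) i : ℤ) := by
    refine Finset.prod_congr rfl fun i _ => ?_
    rw [lin_l, sT, Fin.addCases_left]
    exact phi_val _ _ _ (p6_cases i) (a_cases _)
  have h2 : ∏ i : Fin 6, phi (sT' m (Fin.castAdd m i)) ((a (Fin.castAdd m i)).val : ℤ)
      (lin (-UT m) (fun i => ((a i).val : ℤ)) (Fin.castAdd m i)) =
      ∏ i : Fin 6, fac (1 - p6 i) ((a (Fin.castAdd m i)).val : ℤ)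
        (linN (fun i => a (Fin.castAdd m i)) i : ℤ) := by
    refine Finset.prod_congr rfl fun i _ => ?_
    rw [lin_neg, phi_neg_lin, lin_l, sT', Fin.addCases_left]
    refine phi_val _ _ _ ?_ (a_cases _)
    rcases p6_cases i with h | h <;> rw [h] <;> norm_num
  have h3 := core (fun i => a (Fin.castAdd m i))
  rw [hr, h1, h2, ← mul_assoc, ← mul_assoc, h3]

end Pool.Agent.N139.Th
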