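import Mathlib

/-!
# Values of the three Jacobi theta constants at the cube root of unity
-/

namespace Pool.Agent.N139.Th

open Complex
open scoped Real

/-- `e^{2 pi i / 3}` -/
noncomputable def rho : ℂ := ⟨-1 / 2, √3 / 2⟩

/-- `e^{pi i / 12}` -/
noncomputable def zeta : ℂ := cexp (π * I / 12)

/-- one-dimensional theta sums -/
noncomputable def phi (s : ℂ) (a b : ℤ) : ℂ :=
  ∑' m : ℤ, cexp (π * I * s * (m + (a : ℂ) / 2) ^ 2 + π * I * m * b)

theorem rho_sq : rho ^ 2 + rho + 1 = 0 := by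
  have h3 : √3 * √3 = 3 := Real.mul_self_sqrt (by norm_num)
  apply Complex.ext
  · simp [rho, pow_two]
    nlinarith [h3]
  · simp [rho, pow_two]
    ring

theorem rho_im : 0 < rho.im := by
  simp [rho]

theorem rho_ne : rho ≠ 0 := by
  intro h
  have := rho_im
  rw [h] at this
  simp at this

theorem neg_inv_rho : -1 / rho = rho + 1 := by
  rw [div_eq_iff rho_ne]
  have := rho_sq
  linear_combination -this

theorem zeta_pow (n : ℕ) : zeta ^ n = cexp (n * (π * I / 12)) := by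
  rw [zeta, ← Complex.exp_nat_mul]

theorem zeta_pow_24 : zeta ^ 24 = 1 := by
  rw [zeta_pow, ← Complex.exp_two_pi_mul_I]
  congr 1
  push_cast
  ring

theorem zeta_ne : zeta ≠ 0 := Complex.exp_ne_zero _

theorem neg_I_mul_rho : -I * rho = cexp (π / 6 * I) := by
  rw [Complex.exp_mul_I]
  have h1 : Complex.cos (π / 6) = √3 / 2 := by
    have := Real.cos_pi_div_six
    have h : ((√3 / 2 : ℝ) : ℂ) = Complex.cos (π / 6) := by
      rw [← this]
      push_cast
      rfl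
    rw [← h]
    push_cast
    rfl
  have h2 : Complex.sin (π / 6) = 1 / 2 := by
    have := Real.sin_pi_div_six
    have h : ((1 / 2 : ℝ) : ℂ) = Complex.sin (π / 6) := by
      rw [← this]
      push_cast
      rfl
    rw [← h]
    push_cast
    rfl
  rw [h1, h2]
  apply Complex.ext
  · simp [rho]
  · simp [rho]
    norm_num

theorem sqrt_rho : (-I * rho) ^ (1 / 2 : ℂ) = zeta := by
  rw [neg_I_mul_rho, zeta, Complex.cpow_def_of_ne_zero (Complex.exp_ne_zero _), Complex.log_exp]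
  · congr 1
    ring
  · simp
    have := Real.pi_pos
    linarith
  · simp
    have := Real.pi_pos
    linarith

theorem jt_add_one (z s : ℂ) : jacobiTheta₂ z (s + 1) = jacobiTheta₂ (z + 1 / 2) s := by
  unfold jacobiTheta₂
  refine tsum_congr fun n => ?_
  unfold jacobiTheta₂_term
  obtain ⟨k, hk⟩ : ∃ k : ℤ, n ^ 2 - n = 2 * k := by
    have : Even (n ^ 2 - n) := by
      have h := Int.even_mul_pred_self n
      have h2 : n ^ 2 - n = n * (n - 1) := by ring
      rw [h2]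
      exact h
    obtain ⟨k, hk⟩ := this
    exact ⟨k, by rw [hk]; ring⟩
  have hk' : (n : ℂ) ^ 2 - n = 2 * k := by exact_mod_cast hk
  have h1 : 2 * ↑π * I * ↑n * z + ↑π * I * ↑n ^ 2 * (s + 1) =
      (2 * ↑π * I * ↑n * (z + 1 / 2) + ↑π * I * ↑n ^ 2 * s) + k * (2 * π * I) := by
    linear_combination (π * I) * hk'
  rw [h1, Complex.exp_add, Complex.exp_int_mul_two_pi_mul_I, mul_one]

theorem jt_half : jacobiTheta₂ (1 / 2) rho = zeta * jacobiTheta₂ 0 rho := by
  have h := jacobiTheta₂_functional_equation 0 rho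
  rw [sqrt_rho, neg_inv_rho, zero_div, jt_add_one, zero_add] at h
  have h0 : cexp (-↑π * I * 0 ^ 2 / rho) = 1 := by simp
  rw [h0, mul_one] at h
  rw [h]
  field_simp [zeta_ne]

theorem jt_rho_half : jacobiTheta₂ (rho / 2) rho =
    zeta⁻¹ * cexp (-(π * I * rho / 4)) * jacobiTheta₂ 0 rho := by
  have h := jacobiTheta₂_functional_equation (rho / 2) rho
  have h1 : rho / 2 / rho = 1 / 2 := by
    field_simp [rho_ne]
  rw [sqrt_rho, neg_inv_rho, h1, jt_add_one] at h
  have h2 : (1 / 2 + 1 / 2 : ℂ) = 0 + 1 := by norm_num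
  rw [h2, jacobiTheta₂_add_left] at h
  rw [h]
  have h3 : -↑π * I * (rho / 2) ^ 2 / rho = -(π * I * rho / 4) := by
    field_simp [rho_ne]
    ring
  rw [h3, one_div]

theorem jt_zero (s : ℂ) : jacobiTheta₂ ((s + 1) / 2) s = 0 := by
  have h1 := jacobiTheta₂_add_left' ((1 - s) / 2) s
  have h2 : (1 - s) / 2 + s = (s + 1) / 2 := by ring
  have h3 : -↑π * I * (s + 2 * ((1 - s) / 2)) = -(π * I) := by ring
  rw [h2, h3] at h1
  have h4 : cexp (-(π * I)) = -1 := by
    rw [Complex.exp_neg, Complex.exp_pi_mul_I]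
    norm_num
  rw [h4] at h1
  have h5 : jacobiTheta₂ ((1 - s) / 2) s = jacobiTheta₂ ((s + 1) / 2) s := by
    rw [← jacobiTheta₂_neg_left]
    have : (s + 1) / 2 = -((1 - s) / 2) + 1 := by ring
    rw [this, jacobiTheta₂_add_left]
  rw [h5] at h1
  have : (2 : ℂ) * jacobiTheta₂ ((s + 1) / 2) s = 0 := by
    linear_combination h1
  simpa using this

theorem phi_eq (s : ℂ) (a b : ℤ) :
    phi s a b = cexp (π * I * s * a ^ 2 / 4) * jacobiTheta₂ ((s * a + b) / 2) s := by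
  unfold phi jacobiTheta₂
  rw [← tsum_mul_left]
  refine tsum_congr fun n => ?_
  unfold jacobiTheta₂_term
  rw [← Complex.exp_add]
  congr 1
  ring

theorem jt_add_int (z s : ℂ) (k : ℤ) : jacobiTheta₂ (z + k) s = jacobiTheta₂ z s := by
  induction k using Int.induction_on with
  | zero => simp
  | succ n ih =>
    rw [← ih]
    push_cast
    rw [← add_assoc, jacobiTheta₂_add_left]
  | pred n ih =>
    rw [← ih, ← jacobiTheta₂_add_left (z + ((-(n : ℤ) - 1 : ℤ) : ℂ))]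
    push_cast
    ring_nf

/-- the exponents of `zeta` -/
def kap (p a b : ℤ) : ℕ :=
  if p = 0 then (if a = 0 then (if b % 2 = 0 then 1 else 2) else 0)
  else (if a = 0 then (if b % 2 = 0 then 2 else 1) else 3)

/-- the unit of the values -/
noncomputable def uu : ℂ := zeta⁻¹ * jacobiTheta₂ 0 rho

theorem zeta_uu : zeta * uu = jacobiTheta₂ 0 rho := by
  unfold uu
  field_simp [zeta_ne]

theorem zeta2_uu : zeta ^ 2 * uu = zeta * jacobiTheta₂ 0 rho := by
  rw [← zeta_uu]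
  ring

theorem phi_add (s : ℂ) (a b k : ℤ) : phi s a (b + 2 * k) = phi s a b := by
  rw [phi_eq, phi_eq]
  congr 1
  have : (s * a + ((b + 2 * k : ℤ) : ℂ)) / 2 = (s * a + b) / 2 + k := by
    push_cast
    ring
  rw [this, jt_add_int]

theorem phi_00 : phi rho 0 0 = zeta ^ 1 * uu := by
  rw [phi_eq, pow_one, zeta_uu]
  simp

theorem phi_01 : phi rho 0 1 = zeta ^ 2 * uu := by
  rw [phi_eq, zeta2_uu, ← jt_half]
  simp

theorem phi_10 : phi rho 1 0 = zeta ^ 0 * uu := by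
  rw [phi_eq]
  have h : (rho * ((1 : ℤ) : ℂ) + ((0 : ℤ) : ℂ)) / 2 = rho / 2 := by
    push_cast
    ring
  rw [h, jt_rho_half, uu, pow_zero, one_mul]
  have h2 : cexp (↑π * I * rho * ((1 : ℤ) : ℂ) ^ 2 / 4) * cexp (-(π * I * rho / 4)) = 1 := by
    rw [← Complex.exp_add, ← Complex.exp_zero]
    congr 1
    push_cast
    ring
  linear_combination (zeta⁻¹ * jacobiTheta₂ 0 rho) * h2

theorem phi_11 : phi rho 1 1 = 0 := by
  rw [phi_eq]
  have h : (rho * ((1 : ℤ) : ℂ) + ((1 : ℤ) : ℂ)) / 2 = (rho + 1) / 2 := by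
    push_cast
    ring
  rw [h, jt_zero, mul_zero]

theorem phi1_00 : phi (rho + 1) 0 0 = zeta ^ 2 * uu := by
  rw [phi_eq]
  have h : ((rho + 1) * ((0 : ℤ) : ℂ) + ((0 : ℤ) : ℂ)) / 2 = 0 := by
    push_cast
    ring
  rw [h, jt_add_one, zero_add, jt_half, zeta2_uu]
  simp

theorem phi1_01 : phi (rho + 1) 0 1 = zeta ^ 1 * uu := by
  rw [phi_eq]
  have h : ((rho + 1) * ((0 : ℤ) : ℂ) + ((1 : ℤ) : ℂ)) / 2 = 1 / 2 := by
    push_cast
    ring
  have h2 : (1 / 2 + 1 / 2 : ℂ) = 0 + 1 := by norm_num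
  rw [h, jt_add_one, h2, jacobiTheta₂_add_left, pow_one, zeta_uu]
  simp

theorem phi1_10 : phi (rho + 1) 1 0 = zeta ^ 3 * uu := by
  rw [phi_eq, jt_add_one]
  have h : ((rho + 1) * ((1 : ℤ) : ℂ) + ((0 : ℤ) : ℂ)) / 2 + 1 / 2 = rho / 2 + 1 := by
    push_cast
    ring
  rw [h, jacobiTheta₂_add_left, jt_rho_half, uu, zeta_pow]
  have h2 : cexp (↑π * I * (rho + 1) * ((1 : ℤ) : ℂ) ^ 2 / 4) * cexp (-(π * I * rho / 4)) =
      cexp (((3 : ℕ) : ℂ) * (π * I / 12)) := by
    rw [← Complex.exp_add]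
    congr 1
    push_cast
    ring
  linear_combination (zeta⁻¹ * jacobiTheta₂ 0 rho) * h2

theorem phi1_11 : phi (rho + 1) 1 1 = 0 := by
  rw [phi_eq, jt_add_one]
  have h : ((rho + 1) * ((1 : ℤ) : ℂ) + ((1 : ℤ) : ℂ)) / 2 + 1 / 2 = (rho + 1) / 2 + 1 := by
    push_cast
    ring
  rw [h, jacobiTheta₂_add_left, jt_zero, mul_zero]

theorem phi_val (p a b : ℤ) (hp : p = 0 ∨ p = 1) (ha : a = 0 ∨ a = 1) :
    phi (rho + p) a b = if a = 1 ∧ b % 2 = 1 then 0 else zeta ^ kap p a b * uu := by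
  obtain ⟨k, hk⟩ : ∃ k, b = b % 2 + 2 * k := ⟨b / 2, (Int.emod_add_mul_ediv b 2).symm⟩
  have hb : b % 2 = 0 ∨ b % 2 = 1 := Int.emod_two_eq_zero_or_one b
  have h1 : phi (rho + p) a b = phi (rho + p) a (b % 2) := by
    conv_lhs => rw [hk]
    rw [phi_add]
  rw [h1]
  rcases hb with hb | hb <;> rcases hp with rfl | rfl <;> rcases ha with rfl | rfl <;>
    rw [hb] <;> simp only [kap, hb, Int.cast_zero, Int.cast_one, add_zero]
  · rw [phi_00]; simp
  · rw [phi_10]; simp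
  · rw [phi1_00]; simp
  · rw [phi1_10]; simp
  · rw [phi_01]; simp
  · rw [phi_11]; simp
  · rw [phi1_01]; simp
  · rw [phi1_11]; simp

theorem norm_lt : Real.exp (-Real.pi * (√3 / 2)) < 1 / 3 := by
  have h3 : (1.7 : ℝ) < √3 := by
    rw [Real.lt_sqrt (by norm_num)]
    norm_num
  have hpi := Real.pi_gt_three
  have h1 : -Real.pi * (√3 / 2) < -2 := by nlinarith
  have h2 : Real.exp (-Real.pi * (√3 / 2)) < Real.exp (-2) := Real.exp_lt_exp.2 h1
  have h4 : (3 : ℝ) ≤ Real.exp 2 := by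
    have := Real.add_one_le_exp (2 : ℝ)
    linarith
  have h5 : Real.exp (-2) ≤ 1 / 3 := by
    rw [Real.exp_neg, one_div]
    exact inv_anti₀ (by norm_num) h4
  linarith

theorem jt0_ne (s : ℂ) (hs : √3 / 2 ≤ s.im) : jacobiTheta₂ 0 s ≠ 0 := by
  have h3 : 0 < √3 / 2 := by positivity
  have h := norm_jacobiTheta_sub_one_le (τ := s) (lt_of_lt_of_le h3 hs)
  rw [jacobiTheta_eq_jacobiTheta₂] at h
  intro h0
  rw [h0] at h
  have h1 : Real.exp (-Real.pi * s.im) < 1 / 3 := by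
    refine lt_of_le_of_lt ?_ norm_lt
    apply Real.exp_le_exp.2
    have := Real.pi_pos
    nlinarith
  have h2 : 0 < Real.exp (-Real.pi * s.im) := Real.exp_pos _
  simp only [zero_sub, norm_neg, norm_one] at h
  rw [div_mul_eq_mul_div, le_div_iff₀ (by linarith)] at h
  linarith

theorem uu_ne : uu ≠ 0 := by
  unfold uu
  refine mul_ne_zero (inv_ne_zero zeta_ne) (jt0_ne _ ?_)
  simp [rho]

end Pool.Agent.N139.Th
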