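import Pool.Agent.N139.Th.Prod
import Pool.Agent.N139.Th.Vals

/-!
# Factorisation of the second order theta constants of `(diag(s) + U + U^t) / 2`
-/

namespace Pool.Agent.N139.Th

open Complex Matrix
open scoped Real

theorem phi_summable (s : ℂ) (hs : 0 < s.im) (a b : ℤ) :
    Summable fun m : ℤ => ‖cexp (π * I * s * (m + (a : ℂ) / 2) ^ 2 + π * I * m * b)‖ := by
  have h := (((summable_jacobiTheta₂_term_iff ((s * a + b) / 2) s).2 hs).mul_left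
    (cexp (π * I * s * a ^ 2 / 4))).norm
  refine h.congr fun n => ?_
  unfold jacobiTheta₂_term
  rw [← Complex.exp_add]
  congr 2
  ring

/-- the period matrix `(diag(s) + U + U^t) / 2` -/
noncomputable def tmat {g : ℕ} (s : Fin g → ℂ) (U : Matrix (Fin g) (Fin g) ℤ) :
    Matrix (Fin g) (Fin g) ℂ :=
  fun i j => ((if i = j then s i else 0) + (U i j : ℂ) + (U j i : ℂ)) / 2

theorem tmat_quad {g : ℕ} (s : Fin g → ℂ) (U : Matrix (Fin g) (Fin g) ℤ) (x : Fin g → ℂ) :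
    x ⬝ᵥ (tmat s U *ᵥ x) = 1 / 2 * ∑ i, s i * x i ^ 2 + ∑ i, ∑ j, x i * U i j * x j := by
  have h1 : x ⬝ᵥ (tmat s U *ᵥ x) = ∑ i, ∑ j, (1 / 2 * (if i = j then s i * x i * x j else 0) +
      (1 / 2 * (x i * U i j * x j) + 1 / 2 * (x j * U j i * x i))) := by
    simp only [dotProduct, mulVec, tmat, Finset.mul_sum]
    refine Finset.sum_congr rfl fun i _ => Finset.sum_congr rfl fun j _ => ?_
    split_ifs <;> ring
  rw [h1]
  simp only [Finset.sum_add_distrib, ← Finset.mul_sum]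
  have h2 : ∑ i, ∑ j, (if i = j then s i * x i * x j else 0) = ∑ i, s i * x i ^ 2 := by
    refine Finset.sum_congr rfl fun i _ => ?_
    rw [Finset.sum_ite_eq]
    simp
    ring
  have h3 : ∑ i, ∑ j, x j * (U j i : ℂ) * x i = ∑ i, ∑ j, x i * (U i j : ℂ) * x j :=
    Finset.sum_comm
  rw [h2, h3]
  ring

/-- the linear term -/
def lin {g : ℕ} (U : Matrix (Fin g) (Fin g) ℤ) (a : Fin g → ℤ) (i : Fin g) : ℤ :=
  ∑ j, (U i j + U j i) * a j

theorem tmat_exp {g : ℕ} (s : Fin g → ℂ) (U : Matrix (Fin g) (Fin g) ℤ) (a n : Fin g → ℤ) :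
    cexp (2 * π * I * ((fun i => (n i : ℂ) + (a i : ℂ) / 2) ⬝ᵥ
      (tmat s U *ᵥ (fun i => (n i : ℂ) + (a i : ℂ) / 2)))) =
    cexp (π * I / 2 * ((∑ i, ∑ j, a i * U i j * a j : ℤ) : ℂ)) *
      ∏ i, cexp (π * I * s i * (n i + (a i : ℂ) / 2) ^ 2 + π * I * n i * (lin U a i : ℤ)) := by
  rw [tmat_quad, ← Complex.exp_sum, ← Complex.exp_add]
  have h1 : ∑ i, ∑ j, ((n i : ℂ) + (a i : ℂ) / 2) * (U i j : ℂ) * ((n j : ℂ) + (a j : ℂ) / 2) =
      ((∑ i, ∑ j, n i * U i j * n j : ℤ) : ℂ) + 1 / 2 * (∑ i, (n i : ℂ) * (lin U a i : ℤ)) +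
      1 / 4 * ((∑ i, ∑ j, a i * U i j * a j : ℤ) : ℂ) := by
    have h2 : (∑ i, (n i : ℂ) * ((lin U a i : ℤ) : ℂ)) =
        ∑ i, ∑ j, ((n i : ℂ) * U i j * a j) + ∑ i, ∑ j, ((a i : ℂ) * U i j * n j) := by
      have h3 : ∑ i, ∑ j, ((a i : ℂ) * U i j * n j) = ∑ i, ∑ j, ((a j : ℂ) * U j i * n i) :=
        Finset.sum_comm
      rw [h3, ← Finset.sum_add_distrib]
      refine Finset.sum_congr rfl fun i _ => ?_
      rw [← Finset.sum_add_distrib, lin, Int.cast_sum, Finset.mul_sum]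
      refine Finset.sum_congr rfl fun j _ => ?_
      push_cast
      ring
    rw [h2]
    push_cast
    rw [← Finset.sum_add_distrib, Finset.mul_sum, Finset.mul_sum, ← Finset.sum_add_distrib,
      ← Finset.sum_add_distrib]
    refine Finset.sum_congr rfl fun i _ => ?_
    rw [← Finset.sum_add_distrib, Finset.mul_sum, Finset.mul_sum, ← Finset.sum_add_distrib,
      ← Finset.sum_add_distrib]
    refine Finset.sum_congr rfl fun j _ => ?_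
    ring
  rw [h1, Finset.sum_add_distrib]
  have h4 : ∑ i, π * I * s i * ((n i : ℂ) + (a i : ℂ) / 2) ^ 2 =
      π * I * ∑ i, s i * ((n i : ℂ) + (a i : ℂ) / 2) ^ 2 := by
    rw [Finset.mul_sum]
    exact Finset.sum_congr rfl fun i _ => by ring
  have h5 : ∑ i, π * I * (n i : ℂ) * ((lin U a i : ℤ) : ℂ) =
      π * I * ∑ i, (n i : ℂ) * ((lin U a i : ℤ) : ℂ) := by
    rw [Finset.mul_sum]
    exact Finset.sum_congr rfl fun i _ => by ring
  rw [h4, h5]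
  obtain ⟨K, hK⟩ : ∃ K : ℤ, K = ∑ i, ∑ j, n i * U i j * n j := ⟨_, rfl⟩
  obtain ⟨E, hE⟩ : ∃ E : ℂ, E = ∑ i, s i * ((n i : ℂ) + (a i : ℂ) / 2) ^ 2 := ⟨_, rfl⟩
  obtain ⟨L, hL⟩ : ∃ L : ℂ, L = ∑ i, (n i : ℂ) * ((lin U a i : ℤ) : ℂ) := ⟨_, rfl⟩
  obtain ⟨A, hA⟩ : ∃ A : ℤ, A = ∑ i, ∑ j, a i * U i j * a j := ⟨_, rfl⟩
  rw [← hK, ← hE, ← hL, ← hA]
  have h6 : 2 * ↑π * I * (1 / 2 * E + (↑K + 1 / 2 * L + 1 / 4 * ↑A)) =
      (↑π * I / 2 * ↑A + (↑π * I * E + ↑π * I * L)) + K * (2 * π * I) := by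
    ring
  rw [h6, Complex.exp_add, Complex.exp_int_mul_two_pi_mul_I, mul_one]

theorem tmat_theta {g : ℕ} (s : Fin g → ℂ) (hs : ∀ i, 0 < (s i).im)
    (U : Matrix (Fin g) (Fin g) ℤ) (a : Fin g → ℤ) :
    ∑' n : Fin g → ℤ, cexp (2 * π * I * ((fun i => (n i : ℂ) + (a i : ℂ) / 2) ⬝ᵥ
      (tmat s U *ᵥ (fun i => (n i : ℂ) + (a i : ℂ) / 2)))) =
    cexp (π * I / 2 * ((∑ i, ∑ j, a i * U i j * a j : ℤ) : ℂ)) *
      ∏ i, phi (s i) (a i) (lin U a i) := by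
  have h := (tsum_prod_fin g (fun i m => cexp (π * I * s i * ((m : ℂ) + (a i : ℂ) / 2) ^ 2 +
    π * I * m * (lin U a i : ℤ))) (fun i => phi_summable _ (hs i) _ _)).2
  unfold phi
  rw [← h, ← tsum_mul_left]
  exact tsum_congr fun n => tmat_exp s U a n

end Pool.Agent.N139.Th
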