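import Mathlib

/-!
# Product of absolutely summable families over `Fin k → ℤ`
-/

namespace Pool.Agent.N139.Th

open Real

/-- product of absolutely summable families over `Fin k → ℤ` -/
theorem tsum_prod_fin : ∀ (k : ℕ) (f : Fin k → ℤ → ℂ), (∀ i, Summable fun n => ‖f i n‖) →
    (Summable fun m : Fin k → ℤ => ‖∏ i, f i (m i)‖) ∧
      ∑' m : Fin k → ℤ, ∏ i, f i (m i) = ∏ i, ∑' n, f i n := by
  intro k
  induction k with
  | zero =>
    intro f _
    have : Unique (Fin 0 → ℤ) := Pi.uniqueOfIsEmpty _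
    have h := hasSum_unique (fun m : Fin 0 → ℤ => ∏ i, f i (m i))
    have h' := hasSum_unique (fun m : Fin 0 → ℤ => ‖∏ i, f i (m i)‖)
    refine ⟨h'.summable, ?_⟩
    rw [h.tsum_eq]
    rw [Fin.prod_univ_zero, Fin.prod_univ_zero]
  | succ k ih =>
    intro f hs
    obtain ⟨h1, h2⟩ := ih (fun i => f i.succ) (fun i => hs _)
    have hp : Summable (fun x : ℤ × (Fin k → ℤ) => ‖f 0 x.1 * ∏ i, f (Fin.succ i) (x.2 i)‖) := by
      have h3 := Summable.mul_norm (f := f 0)
        (g := fun m : Fin k → ℤ => ∏ i, f (Fin.succ i) (m i)) (hs 0) h1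
      exact h3
    have hkey : ∀ x : ℤ × (Fin k → ℤ), (∏ i, f i ((Fin.consEquiv (fun _ => ℤ)) x i)) =
        f 0 x.1 * ∏ i, f (Fin.succ i) (x.2 i) := by
      intro x
      rw [Fin.prod_univ_succ]
      simp [Fin.consEquiv]
    constructor
    · rw [← (Fin.consEquiv (fun _ : Fin (k+1) => ℤ)).summable_iff]
      refine hp.congr ?_
      intro x
      simp only [Function.comp]
      rw [hkey x]
    · rw [← (Fin.consEquiv (fun _ : Fin (k+1) => ℤ)).tsum_eq]
      have h4 := tsum_mul_tsum_of_summable_norm (f := f 0)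
        (g := fun m : Fin k → ℤ => ∏ i, f (Fin.succ i) (m i)) (hs 0) h1
      rw [tsum_congr hkey, ← h4, h2, Fin.prod_univ_succ]

end Pool.Agent.N139.Th
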